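import Mathlib
import Pool.Agent.W437.HC.Act
import Pool.Agent.W437.HD.Fixed

/-!
# The Casimir tensor of a Lie algebra of symplectic matrices
-/

set_option autoImplicit false
set_option linter.unusedSectionVars false
set_option linter.unusedVariables false

namespace Pool.Agent.Q154.UV

open Matrix Module Pool.Agent.W437.HC

variable {B : Type*} [Fintype B] [DecidableEq B]

/-- The tensor of two matrices. -/
def TT (Om A A' : Matrix B B ℂ) : (Fin 4 → B) → ℂ :=
  fun w => (Om * A) (w 0) (w 1) * (Om * A') (w 2) (w 3)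

theorem act_TT {Om X : Matrix B B ℂ} (hX : Xᵀ * Om + Om * X = 0) (A A' : Matrix B B ℂ) :
    act X (TT Om A A') = -(TT Om (X * A - A * X) A' + TT Om A (X * A' - A' * X)) := by
  have hX' : Xᵀ * Om = -(Om * X) := eq_neg_of_add_eq_zero_left hX
  have key : ∀ (A : Matrix B B ℂ) (a b : B), (∑ j, X j a * (Om * A) j b) +
      (∑ j, X j b * (Om * A) a j) = -(Om * (X * A - A * X)) a b := by
    intro A a b
    have h1 : (∑ j, X j a * (Om * A) j b) = (Xᵀ * (Om * A)) a b := by
      rw [Matrix.mul_apply]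
      rfl
    have h2 : (∑ j, X j b * (Om * A) a j) = ((Om * A) * X) a b := by
      rw [Matrix.mul_apply]
      exact Finset.sum_congr rfl fun j _ => mul_comm _ _
    have h3 : Xᵀ * (Om * A) + Om * A * X = -(Om * (X * A - A * X)) := by
      rw [← mul_assoc, hX']
      noncomm_ring
    rw [h1, h2]
    exact congrFun (congrFun h3 a) b
  funext I
  have e0 : ∀ j, TT Om A A' (Function.update I 0 j) = (Om * A) j (I 1) * (Om * A') (I 2) (I 3) := by
    intro j
    simp [TT, Function.update]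
  have e1 : ∀ j, TT Om A A' (Function.update I 1 j) = (Om * A) (I 0) j * (Om * A') (I 2) (I 3) := by
    intro j
    simp [TT, Function.update]
  have e2 : ∀ j, TT Om A A' (Function.update I 2 j) = (Om * A) (I 0) (I 1) * (Om * A') j (I 3) := by
    intro j
    simp [TT, Function.update]
  have e3 : ∀ j, TT Om A A' (Function.update I 3 j) = (Om * A) (I 0) (I 1) * (Om * A') (I 2) j := by
    intro j
    simp [TT, Function.update]
  have h1 := key A (I 0) (I 1)
  have h2 := key A' (I 2) (I 3)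
  simp only [act, Fin.sum_univ_four, e0, e1, e2, e3, Pi.neg_apply, Pi.add_apply]
  have f0 : ∑ j, X j (I 0) * ((Om * A) j (I 1) * (Om * A') (I 2) (I 3)) =
      (∑ j, X j (I 0) * (Om * A) j (I 1)) * (Om * A') (I 2) (I 3) := by
    rw [Finset.sum_mul]
    exact Finset.sum_congr rfl fun j _ => by ring
  have f1 : ∑ j, X j (I 1) * ((Om * A) (I 0) j * (Om * A') (I 2) (I 3)) =
      (∑ j, X j (I 1) * (Om * A) (I 0) j) * (Om * A') (I 2) (I 3) := by
    rw [Finset.sum_mul]
    exact Finset.sum_congr rfl fun j _ => by ring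
  have f2 : ∑ j, X j (I 2) * ((Om * A) (I 0) (I 1) * (Om * A') j (I 3)) =
      (Om * A) (I 0) (I 1) * ∑ j, X j (I 2) * (Om * A') j (I 3) := by
    rw [Finset.mul_sum]
    exact Finset.sum_congr rfl fun j _ => by ring
  have f3 : ∑ j, X j (I 3) * ((Om * A) (I 0) (I 1) * (Om * A') (I 2) j) =
      (Om * A) (I 0) (I 1) * ∑ j, X j (I 3) * (Om * A') (I 2) j := by
    rw [Finset.mul_sum]
    exact Finset.sum_congr rfl fun j _ => by ring
  rw [f0, f1, f2, f3]
  simp only [TT]
  linear_combination (Om * A') (I 2) (I 3) * h1 + (Om * A) (I 0) (I 1) * h2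

theorem TT_sum_left {ι : Type*} (s : Finset ι) (Om : Matrix B B ℂ) (A : ι → Matrix B B ℂ)
    (A' : Matrix B B ℂ) : TT Om (∑ i ∈ s, A i) A' = ∑ i ∈ s, TT Om (A i) A' := by
  classical
  funext w
  simp only [TT, Finset.sum_apply, Finset.mul_sum, Matrix.sum_apply, Finset.sum_mul]

theorem TT_sum_right {ι : Type*} (s : Finset ι) (Om : Matrix B B ℂ) (A : ι → Matrix B B ℂ)
    (A' : Matrix B B ℂ) : TT Om A' (∑ i ∈ s, A i) = ∑ i ∈ s, TT Om A' (A i) := by
  classical
  funext w
  simp only [TT, Finset.sum_apply, Finset.mul_sum, Matrix.sum_apply]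

theorem TT_smul_left (a : ℂ) (Om A A' : Matrix B B ℂ) : TT Om (a • A) A' = a • TT Om A A' := by
  funext w
  simp only [TT, Pi.smul_apply, smul_eq_mul, Matrix.mul_smul, Matrix.smul_apply, mul_assoc]

theorem TT_smul_right (a : ℂ) (Om A A' : Matrix B B ℂ) : TT Om A (a • A') = a • TT Om A A' := by
  funext w
  simp only [TT, Pi.smul_apply, smul_eq_mul, Matrix.mul_smul, Matrix.smul_apply]
  ring

/-- Dual bases. -/
structure DB {n : ℕ} (L : Submodule ℂ (Matrix B B ℂ)) (x y : Fin n → Matrix B B ℂ) : Prop where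
  xm : ∀ i, x i ∈ L
  ym : ∀ i, y i ∈ L
  xe : ∀ z ∈ L, z = ∑ i, trace (z * y i) • x i
  ye : ∀ z ∈ L, z = ∑ i, trace (x i * z) • y i

/-- The Casimir tensor. -/
def cas {n : ℕ} (Om : Matrix B B ℂ) (x y : Fin n → Matrix B B ℂ) : (Fin 4 → B) → ℂ :=
  ∑ i, TT Om (x i) (y i)

theorem cas_eq {n m : ℕ} {L : Submodule ℂ (Matrix B B ℂ)} {x y : Fin n → Matrix B B ℂ}
    {x' y' : Fin m → Matrix B B ℂ} (h : DB L x y) (h' : DB L x' y') (Om : Matrix B B ℂ) :
    cas Om x y = cas Om x' y' := by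
  have h1 : ∀ s, TT Om (x' s) (y' s) = ∑ t, trace (x' s * y t) • TT Om (x t) (y' s) := by
    intro s
    nth_rewrite 1 [h.xe (x' s) (h'.xm s)]
    rw [TT_sum_left]
    exact Finset.sum_congr rfl fun t _ => TT_smul_left _ _ _ _
  have h2 : ∀ t, TT Om (x t) (y t) = ∑ s, trace (x' s * y t) • TT Om (x t) (y' s) := by
    intro t
    nth_rewrite 1 [h'.ye (y t) (h.ym t)]
    rw [TT_sum_right]
    exact Finset.sum_congr rfl fun s _ => TT_smul_right _ _ _ _
  unfold cas
  rw [Finset.sum_congr rfl fun s _ => h1 s, Finset.sum_congr rfl fun t _ => h2 t,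
    Finset.sum_comm]

theorem DB.aut {n : ℕ} {L : Submodule ℂ (Matrix B B ℂ)} {x y : Fin n → Matrix B B ℂ}
    (h : DB L x y) (hL : ∀ (σ : ℂ ≃+* ℂ), ∀ X ∈ L, X.map σ ∈ L) (σ : ℂ ≃+* ℂ) :
    DB L (fun i => (x i).map σ) (fun i => (y i).map σ) := by
  have hs : ∀ X : Matrix B B ℂ, (X.map σ.symm).map σ = X := by
    intro X
    ext i j
    simp
  have ht : ∀ X : Matrix B B ℂ, trace (X.map σ) = σ (trace X) := by
    intro X
    simp [Matrix.trace]
  have hsum : ∀ (a : Fin n → ℂ) (X : Fin n → Matrix B B ℂ),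
      (∑ i, a i • X i).map σ = ∑ i, σ (a i) • (X i).map σ := by
    intro a X
    ext k l
    simp [Matrix.sum_apply]
  refine ⟨fun i => hL σ _ (h.xm i), fun i => hL σ _ (h.ym i), fun z hz => ?_, fun z hz => ?_⟩
  · have h1 := h.xe _ (hL σ.symm _ hz)
    have h2 := congrArg (fun X : Matrix B B ℂ => X.map σ) h1
    simp only [hsum, hs] at h2
    nth_rewrite 1 [h2]
    refine Finset.sum_congr rfl fun i _ => ?_
    congr 1
    rw [← ht]
    congr 1
    have h3 : (z.map σ.symm * y i).map (σ : ℂ →+* ℂ) = (z.map σ.symm).map (σ : ℂ →+* ℂ) *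
        (y i).map (σ : ℂ →+* ℂ) := Matrix.map_mul
    exact h3.trans (congrArg (fun W : Matrix B B ℂ => W * (y i).map (σ : ℂ →+* ℂ)) (hs z))
  · have h1 := h.ye _ (hL σ.symm _ hz)
    have h2 := congrArg (fun X : Matrix B B ℂ => X.map σ) h1
    simp only [hsum, hs] at h2
    nth_rewrite 1 [h2]
    refine Finset.sum_congr rfl fun i _ => ?_
    congr 1
    rw [← ht]
    congr 1
    have h3 : (x i * z.map σ.symm).map (σ : ℂ →+* ℂ) = (x i).map (σ : ℂ →+* ℂ) *
        (z.map σ.symm).map (σ : ℂ →+* ℂ) := Matrix.map_mul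
    exact h3.trans (congrArg (fun W : Matrix B B ℂ => (x i).map (σ : ℂ →+* ℂ) * W) (hs z))

theorem cas_aut {n : ℕ} {L : Submodule ℂ (Matrix B B ℂ)} {x y : Fin n → Matrix B B ℂ}
    (h : DB L x y) (hL : ∀ (σ : ℂ ≃+* ℂ), ∀ X ∈ L, X.map σ ∈ L) {Om : Matrix B B ℂ}
    (hOm : ∀ σ : ℂ ≃+* ℂ, Om.map σ = Om) (σ : ℂ ≃+* ℂ) (w : Fin 4 → B) :
    σ (cas Om x y w) = cas Om x y w := by
  have h1 : ∀ (A : Matrix B B ℂ) (a b : B), σ ((Om * A) a b) = (Om * A.map σ) a b := by
    intro A a b
    have h3 : (Om * A).map (σ : ℂ →+* ℂ) = Om.map (σ : ℂ →+* ℂ) * A.map (σ : ℂ →+* ℂ) :=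
      Matrix.map_mul
    have h4 := congrFun (congrFun h3 a) b
    rw [Matrix.map_apply] at h4
    refine h4.trans ?_
    exact congrFun (congrFun (congrArg (fun W : Matrix B B ℂ => W * A.map (σ : ℂ →+* ℂ))
      (hOm σ)) a) b
  have h2 := congrFun (cas_eq (h.aut hL σ) h Om) w
  refine Eq.trans ?_ h2
  unfold cas
  simp only [Finset.sum_apply, map_sum, TT, map_mul, h1]

theorem exists_rat {n : ℕ} {L : Submodule ℂ (Matrix B B ℂ)} {x y : Fin n → Matrix B B ℂ}
    (h : DB L x y) (hL : ∀ (σ : ℂ ≃+* ℂ), ∀ X ∈ L, X.map σ ∈ L) {Om : Matrix B B ℂ}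
    (hOm : ∀ σ : ℂ ≃+* ℂ, Om.map σ = Om) :
    ∃ c : (Fin 4 → B) → ℚ, cst ℂ c = cas Om x y := by
  have h1 : ∀ w, ∃ q : ℚ, cas Om x y w = q := by
    intro w
    by_contra hcon
    push Not at hcon
    obtain ⟨σ, hσ⟩ := Pool.Agent.W437.HD.exists_move hcon
    exact hσ (cas_aut h hL hOm σ w)
  choose c hc using h1
  exact ⟨c, funext fun w => (hc w).symm⟩

theorem act_sum_right {ι κ : Type*} [Fintype κ] [DecidableEq κ] (s : Finset ι) (X : Matrix B B ℂ)
    (c : ι → (κ → B) → ℂ) : act X (∑ i ∈ s, c i) = ∑ i ∈ s, act X (c i) := by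
  classical
  induction s using Finset.induction_on with
  | empty => simp [act_zero_right]
  | insert a s ha ih => rw [Finset.sum_insert ha, Finset.sum_insert ha, act_add_right, ih]

theorem act_cas {n : ℕ} (x y : Fin n → Matrix B B ℂ) {Om X : Matrix B B ℂ}
    (hX : Xᵀ * Om + Om * X = 0) :
    act X (cas Om x y) = -∑ i, (TT Om (X * x i - x i * X) (y i) +
      TT Om (x i) (X * y i - y i * X)) := by
  unfold cas
  rw [act_sum_right, ← Finset.sum_neg_distrib]
  exact Finset.sum_congr rfl fun i _ => act_TT hX _ _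

theorem act_cas_mem {n : ℕ} {L : Submodule ℂ (Matrix B B ℂ)} {x y : Fin n → Matrix B B ℂ}
    (h : DB L x y) (hbr : ∀ A ∈ L, ∀ C ∈ L, A * C - C * A ∈ L) {Om X : Matrix B B ℂ}
    (hX : Xᵀ * Om + Om * X = 0) (hXL : X ∈ L) : act X (cas Om x y) = 0 := by
  rw [act_cas x y hX, neg_eq_zero, Finset.sum_add_distrib]
  have h1 : ∀ i, TT Om (X * x i - x i * X) (y i) =
      ∑ j, trace ((X * x i - x i * X) * y j) • TT Om (x j) (y i) := by
    intro i
    nth_rewrite 1 [h.xe _ (hbr X hXL _ (h.xm i))]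
    rw [TT_sum_left]
    exact Finset.sum_congr rfl fun t _ => TT_smul_left _ _ _ _
  have h2 : ∀ i, TT Om (x i) (X * y i - y i * X) =
      ∑ j, trace (x j * (X * y i - y i * X)) • TT Om (x i) (y j) := by
    intro i
    nth_rewrite 1 [h.ye _ (hbr X hXL _ (h.ym i))]
    rw [TT_sum_right]
    exact Finset.sum_congr rfl fun t _ => TT_smul_right _ _ _ _
  rw [Finset.sum_congr rfl fun i _ => h1 i, Finset.sum_congr rfl fun i _ => h2 i,
    Finset.sum_comm (f := fun i j => trace (x j * (X * y i - y i * X)) • TT Om (x i) (y j)),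
    ← Finset.sum_add_distrib]
  refine Finset.sum_eq_zero fun i _ => ?_
  rw [← Finset.sum_add_distrib]
  refine Finset.sum_eq_zero fun j _ => ?_
  rw [← add_smul, ← trace_add]
  have h4 : (X * x i - x i * X) * y j + x i * (X * y j - y j * X) =
      X * (x i * y j) - (x i * y j) * X := by noncomm_ring
  rw [h4, trace_sub, trace_mul_comm, sub_self, zero_smul]

/-- If `N` annihilates the Casimir tensor then it normalizes the Lie algebra. -/
theorem normalizes {n : ℕ} {L : Submodule ℂ (Matrix B B ℂ)} {x y : Fin n → Matrix B B ℂ}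
    (h : DB L x y) {Om N : Matrix B B ℂ} (hOm2 : Om * Om = -1) (hN : Nᵀ * Om + Om * N = 0)
    (hk : act N (cas Om x y) = 0) {X : Matrix B B ℂ} (hX : X ∈ L) : N * X - X * N ∈ L := by
  rw [act_cas x y hN, neg_eq_zero] at hk
  -- pairing with a matrix
  have hp : ∀ (A' M : Matrix B B ℂ), trace (A' * M) =
      ∑ k, ∑ l, (Om * A') k l * (M * -Om) l k := by
    intro A' M
    have h1 : trace (A' * M) = trace ((Om * A') * (M * -Om)) := by
      have h2 : (Om * A') * (M * -Om) = Om * (A' * M * -Om) := by noncomm_ring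
      have h3 : A' * M * -Om * Om = A' * M := by
        rw [mul_assoc, neg_mul, hOm2, neg_neg, mul_one]
      rw [h2, trace_mul_comm Om, h3]
    rw [h1]
    simp only [Matrix.trace, Matrix.diag_apply, Matrix.mul_apply (M := Om * A')]
  have hpair : ∀ M : Matrix B B ℂ, ∑ i, (trace (y i * M) • (N * x i - x i * N) +
      trace ((N * y i - y i * N) * M) • x i) = 0 := by
    intro M
    have h1 : Om * ∑ i, (trace (y i * M) • (N * x i - x i * N) +
      trace ((N * y i - y i * N) * M) • x i) = 0 := by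
      ext a b
      rw [Finset.mul_sum, Matrix.sum_apply, Matrix.zero_apply]
      simp only [mul_add, Matrix.mul_smul, Matrix.add_apply, Matrix.smul_apply, smul_eq_mul]
      have h2 : ∀ k l, ∑ i, ((Om * (N * x i - x i * N)) a b * (Om * y i) k l +
          (Om * x i) a b * (Om * (N * y i - y i * N)) k l) = 0 := by
        intro k l
        have h3 := congrFun hk ![a, b, k, l]
        rw [Finset.sum_apply] at h3
        exact h3
      have h3 : ∑ k, ∑ l, (∑ i, ((Om * (N * x i - x i * N)) a b * (Om * y i) k l +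
          (Om * x i) a b * (Om * (N * y i - y i * N)) k l)) * (M * -Om) l k = 0 := by
        simp only [h2, zero_mul, Finset.sum_const_zero]
      rw [← h3]
      simp only [hp, Finset.sum_mul]
      have h4 : ∀ k, (∑ l, ∑ i, ((Om * (N * x i - x i * N)) a b * (Om * y i) k l +
          (Om * x i) a b * (Om * (N * y i - y i * N)) k l) * (M * -Om) l k) =
          ∑ i, ∑ l, ((Om * (N * x i - x i * N)) a b * (Om * y i) k l +
          (Om * x i) a b * (Om * (N * y i - y i * N)) k l) * (M * -Om) l k :=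
        fun k => Finset.sum_comm
      rw [Finset.sum_congr rfl fun k _ => h4 k, Finset.sum_comm]
      refine Finset.sum_congr rfl fun i _ => ?_
      rw [← Finset.sum_add_distrib]
      refine Finset.sum_congr rfl fun k _ => ?_
      rw [← Finset.sum_add_distrib]
      refine Finset.sum_congr rfl fun l _ => ?_
      ring
    have h2 := congrArg (fun W => -Om * W) h1
    simp only [mul_zero] at h2
    rw [← mul_assoc, neg_mul, hOm2, neg_neg, one_mul] at h2
    exact h2
  have h1 := hpair X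
  rw [Finset.sum_add_distrib] at h1
  have h2 : ∑ i, trace (y i * X) • (N * x i - x i * N) = N * X - X * N := by
    have h3 := h.xe X hX
    have h4 : N * X - X * N = N * (∑ i, trace (X * y i) • x i) -
        (∑ i, trace (X * y i) • x i) * N := by rw [← h3]
    rw [h4, Finset.mul_sum, Finset.sum_mul, ← Finset.sum_sub_distrib]
    refine Finset.sum_congr rfl fun i _ => ?_
    rw [Matrix.mul_smul, Matrix.smul_mul, ← smul_sub, trace_mul_comm]
  rw [h2] at h1
  rw [eq_neg_of_add_eq_zero_left h1]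
  exact Submodule.neg_mem _ (Submodule.sum_mem _ fun i _ => Submodule.smul_mem _ _ (h.xm i))

/-- The orthogonal projection. -/
theorem DB.proj {n : ℕ} {L : Submodule ℂ (Matrix B B ℂ)} {x y : Fin n → Matrix B B ℂ}
    (h : DB L x y) (N : Matrix B B ℂ) : ∃ Y ∈ L, ∀ X ∈ L, trace (X * Y) = trace (X * N) := by
  refine ⟨∑ i, trace (x i * N) • y i, Submodule.sum_mem _ fun i _ =>
    Submodule.smul_mem _ _ (h.ym i), fun X hX => ?_⟩
  have h1 : trace (X * N) = trace ((∑ i, trace (X * y i) • x i) * N) := by rw [← h.xe X hX]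
  rw [h1, Finset.mul_sum, trace_sum, Finset.sum_mul, trace_sum]
  refine Finset.sum_congr rfl fun i _ => ?_
  rw [Matrix.mul_smul, Matrix.smul_mul, trace_smul, trace_smul, smul_eq_mul, smul_eq_mul, mul_comm]

/-- **Structure**: the algebraic part. -/
theorem mem_of_normalizes {n m : ℕ} {L : Submodule ℂ (Matrix B B ℂ)}
    {x y : Fin n → Matrix B B ℂ} (h : DB L x y)
    {x' y' : Fin m → Matrix B B ℂ}
    (hbr : ∀ A ∈ L, ∀ C ∈ L, A * C - C * A ∈ L)
    (hnd : ∀ X ∈ L, (∀ Y ∈ L, trace (X * Y) = 0) → X = 0)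
    (C : Submodule ℂ (Matrix B B ℂ)) (hC : ∀ c, c ∈ C ↔ ∀ X ∈ L, c * X = X * c)
    (h' : DB (L ⊓ C) x' y')
    (hpos : ∀ c ∈ C, (∀ c' ∈ C, trace (c * c') = 0) → c = 0)
    {N : Matrix B B ℂ} (hN : ∀ X ∈ L, N * X - X * N ∈ L) (hNt : ∀ c ∈ C, trace (N * c) = 0) :
    N ∈ L := by
  -- an element whose bracket pairs to zero
  have hbr0 : ∀ W : Matrix B B ℂ, (∀ X ∈ L, W * X - X * W ∈ L) →
      (∀ X ∈ L, trace (X * W) = 0) → W ∈ C := by
    intro W h1 h2
    rw [hC]
    intro X hX
    rw [← sub_eq_zero]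
    refine hnd _ (h1 X hX) fun Y hY => ?_
    have h3 := h2 _ (hbr X hX Y hY)
    rw [← h3, sub_mul, sub_mul, trace_sub, trace_sub, trace_mul_comm (X * Y) W,
      mul_assoc W X Y]
    congr 1
    rw [mul_assoc X W Y, trace_mul_comm X (W * Y), mul_assoc W Y X, trace_mul_comm W (Y * X)]
  obtain ⟨Y0, hY0, hY0t⟩ := h.proj N
  have hz : N - Y0 ∈ C := by
    refine hbr0 _ (fun X hX => ?_) (fun X hX => ?_)
    · have h1 : (N - Y0) * X - X * (N - Y0) = (N * X - X * N) - (Y0 * X - X * Y0) := by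
        noncomm_ring
      rw [h1]
      exact Submodule.sub_mem _ (hN X hX) (hbr _ hY0 X hX)
    · rw [mul_sub, trace_sub, hY0t X hX, sub_self]
  obtain ⟨Yc, hYc, hYct⟩ := h'.proj Y0
  have hYd : Y0 - Yc ∈ L := Submodule.sub_mem _ hY0 hYc.1
  have hYdt : ∀ c ∈ C, trace (c * (Y0 - Yc)) = 0 := by
    intro c hc
    obtain ⟨c', hc', hct⟩ := h.proj c
    have hc'C : c' ∈ C := by
      rw [hC]
      intro X hX
      rw [← sub_eq_zero]
      refine hnd _ (hbr _ hc' X hX) fun Y hY => ?_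
      have h3 := hct _ (hbr X hX Y hY)
      have h5 : trace ((X * Y - Y * X) * c) = 0 := by
        have h6 := (hC c).1 hc X hX
        rw [sub_mul, trace_sub, trace_mul_comm (X * Y) c, ← mul_assoc, h6, mul_assoc,
          trace_mul_comm X (c * Y), mul_assoc, trace_mul_comm c (Y * X), sub_self]
      rw [h5] at h3
      rw [← h3, sub_mul, sub_mul, trace_sub, trace_sub, trace_mul_comm (X * Y) c',
        mul_assoc c' X Y]
      congr 1
      rw [mul_assoc X c' Y, trace_mul_comm X (c' * Y), mul_assoc c' Y X,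
        trace_mul_comm c' (Y * X)]
    have h1 := hYct c' ⟨hc', hc'C⟩
    have h2 := hct _ hYd
    rw [trace_mul_comm c, ← h2, trace_mul_comm _ c', mul_sub, trace_sub, h1, sub_self]
  have hfin : N - (Y0 - Yc) = 0 := by
    have h0 : N - (Y0 - Yc) ∈ C := by
      have h1 : N - (Y0 - Yc) = (N - Y0) + Yc := by abel
      rw [h1]
      exact Submodule.add_mem _ hz hYc.2
    refine hpos _ h0 fun c' hc' => ?_
    rw [sub_mul, trace_sub, hNt c' hc', trace_mul_comm, hYdt c' hc', sub_self]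
  rw [sub_eq_zero.1 hfin]
  exact hYd

end Pool.Agent.Q154.UV
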