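import Mathlib
import Pool.Agent.Q180.UV.Stm2
import Pool.Agent.Y4.G.Cas
import Pool.Agent.Q154.UV.NrmA

/-!
# JOB UV5 NRM: the Lie algebra is determined by the tensors of degree four
-/

set_option autoImplicit false
set_option linter.unusedSectionVars false
set_option linter.unusedVariables false

namespace Pool.Agent.Q154.UV

open Matrix Module Pool.Agent.W437.HC Pool.Agent.W437.HD Pool.Agent.W548.Odd
open Pool.Agent.Y4.K (Pol dag Rm Ri)
open Pool.Agent.Y4.H (LZ Ct)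

open scoped ComplexOrder

theorem exists_DB {B : Type*} [Fintype B] [DecidableEq B] (L : Submodule ℂ (Matrix B B ℂ))
    (hnd : ∀ X ∈ L, (∀ Y ∈ L, trace (X * Y) = 0) → X = 0) :
    ∃ (n : ℕ) (x y : Fin n → Matrix B B ℂ), DB L x y := by
  obtain ⟨n, b, y, h1, h2, h3⟩ := Pool.Agent.Y4.G.exists_dual (Pool.Agent.Y4.G.trF B) L L
    (fun X hX h => hnd X hX h)
    (fun Y hY h => hnd Y hY fun X hX => by
      rw [trace_mul_comm]
      exact h X hX)
  refine ⟨n, fun i => b i, y, fun i => (b i).2, h1, fun z hz => ?_, fun z hz => h3 z hz⟩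
  have h4 := congrArg Subtype.val (b.sum_repr ⟨z, hz⟩)
  rw [Submodule.coe_sum] at h4
  refine h4.symm.trans (Finset.sum_congr rfl fun i _ => ?_)
  have h5 := h2 i ⟨z, hz⟩
  rw [← h5]
  rfl

theorem pos_dag {g : ℕ} {Z : Matrix (Fin g) (Fin g) ℂ} (M : Pol Z)
    {c : Matrix (Fin g ⊕ Fin g) (Fin g ⊕ Fin g) ℂ} (h : trace (c * dag Z c) = 0) : c = 0 := by
  obtain ⟨S, Si, H, hR⟩ := M.herm
  have hSi := M.Si_eq H hR
  have h2 : trace ((S * c * Si) * (S * c * Si)ᴴ) = 0 := by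
    rw [← h]
    unfold dag
    rw [← hR, ← hSi, conjTranspose_mul, conjTranspose_mul]
    have e1 : S * c * Si * (Siᴴ * (cᴴ * Sᴴ)) = S * (c * Si * Siᴴ * cᴴ * Sᴴ) := by noncomm_ring
    rw [e1, trace_mul_comm]
    congr 1
    noncomm_ring
  rw [trace_mul_conjTranspose_self_eq_zero_iff] at h2
  calc c = (Si * S) * c * (Si * S) := by rw [H.SiS, one_mul, mul_one]
  _ = Si * (S * c * Si) * S := by noncomm_ring
  _ = 0 := by rw [h2, mul_zero, zero_mul]

/-- **JOB UV5 NRM.** -/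
theorem nrm : Pool.Agent.Q180.UV.S_nrm := by
  intro g Z M hK N hN
  obtain ⟨S, Si, H, hR⟩ := M.herm
  have hnd : ∀ X ∈ LZ Z, (∀ Y ∈ LZ Z, trace (X * Y) = 0) → X = 0 := fun X hX h => H.nondeg hX h
  have hdagL : ∀ X ∈ LZ Z, dag Z X ∈ LZ Z := by
    intro X hX
    have h1 := H.adj X hX
    rw [M.Si_eq H hR, hR] at h1
    exact h1
  obtain ⟨n, x, y, hDB⟩ := exists_DB (LZ Z) hnd
  obtain ⟨C, hC⟩ : ∃ C, C = Cm (DZ '' {Z}) := ⟨_, rfl⟩
  have hCm : ∀ c, c ∈ C ↔ ∀ X ∈ LZ Z, c * X = X * c := by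
    intro c
    rw [hC]
    rfl
  have hdagC : ∀ X ∈ C, dag Z X ∈ C := by
    intro X hX
    rw [hCm] at hX ⊢
    exact M.dag_mem hX
  have hndC : ∀ X ∈ LZ Z ⊓ C, (∀ Y ∈ LZ Z ⊓ C, trace (X * Y) = 0) → X = 0 :=
    fun X hX h => pos_dag M (h _ ⟨hdagL X hX.1, hdagC X hX.2⟩)
  obtain ⟨m, x', y', hDB'⟩ := exists_DB _ hndC
  obtain ⟨c, hc⟩ := exists_rat (Om := Om g ℂ) hDB (fun σ X hX => LA_aut (σ : ℂ →+* ℂ) hX)
    (fun σ => by
      ext i j
      rcases i with i | i <;> rcases j with j | j <;>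
        simp [Om, Matrix.one_apply, apply_ite])
  have hself : DZ Z ∈ LZ Z := LA_self ⟨Z, rfl, rfl⟩
  have hIs : IsH (DZ Z) c := by
    unfold IsH
    rw [hc]
    exact act_cas_mem hDB (fun A hA C hC => LA_br hA hC) (H.sp _ hself) hself
  have hk : act N (cas (Om g ℂ) x y) = 0 := by
    rw [← hc]
    exact hK N hN c hIs
  obtain ⟨hN1, hN2, hN3⟩ := hN
  refine mem_of_normalizes hDB (fun A hA C hC => LA_br hA hC) hnd C hCm hDB' ?_ ?_ ?_
  · intro c hc h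
    exact pos_dag M (h _ (hdagC c hc))
  · intro X hX
    exact normalizes hDB (Om_sq ℂ) hN2 hk hX
  · intro c hc
    exact hN3 c ((hCm c).1 hc)

end Pool.Agent.Q154.UV
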